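import Mathlib
import Pool.Agent.Y633.GenK.Comb

/-! # Circuits given by sets of sources, and the number of reached sinks -/

open Finset

set_option linter.unusedSectionVars false

namespace Pool.Agent.Y633.LinK

open Pool.Agent.Y633.Dep Pool.Agent.Y633.Wire Pool.Agent.Y633.Gen Pool.Agent.Y633.GenK

/-- The circuit in which the gate `v` reads the elements of `S v`. -/
@[reducible] noncomputable def ofSets {n s : ℕ} (q : ℕ) (S : Fin s → Finset (Fin n ⊕ Fin s))
    (hS : ∀ v u, Sum.inr u ∈ S v → u < v) (out : Fin s) : Circuit n q where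
  size := s
  arity v := (S v).card
  src v a := Sum.elim (fun i => Sum.inl (Sum.inl i)) (fun u => Sum.inr u)
    ((S v).equivFin.symm a).1
  op _ _ := false
  acyclic := by
    intro v a u h
    apply hS
    rcases hs : ((S v).equivFin.symm a).1 with i | u'
    · rw [hs] at h
      simp at h
    · rw [hs] at h
      simp only [Sum.elim_inr, Sum.inr.injEq] at h
      rw [← h, ← hs]
      exact ((S v).equivFin.symm a).2
  out := out

section

variable {n s q : ℕ} {S : Fin s → Finset (Fin n ⊕ Fin s)}
  {hS : ∀ v u, Sum.inr u ∈ S v → u < v} {out : Fin s}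

lemma ofSets_src_inr (v : Fin s) (a : Fin (S v).card) (u : Fin s) :
    (ofSets q S hS out).src v a = Sum.inr u ↔ ((S v).equivFin.symm a).1 = Sum.inr u := by
  rcases hs : ((S v).equivFin.symm a).1 with i | u'
  · simp [hs]
  · simp [hs]

lemma ofSets_src_inl (v : Fin s) (a : Fin (S v).card) (i : Fin n) :
    (ofSets q S hS out).src v a = Sum.inl (Sum.inl i) ↔
      ((S v).equivFin.symm a).1 = Sum.inl i := by
  rcases hs : ((S v).equivFin.symm a).1 with i' | u'
  · simp [hs]
  · simp [hs]

lemma ofSets_inr (v u : Fin s) :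
    (∃ a, (ofSets q S hS out).src v a = Sum.inr u) ↔ Sum.inr u ∈ S v := by
  constructor
  · rintro ⟨a, ha⟩
    rw [← (ofSets_src_inr (q := q) (hS := hS) (out := out) v a u).1 ha]
    exact ((S v).equivFin.symm a).2
  · intro h
    refine ⟨(S v).equivFin ⟨_, h⟩, (ofSets_src_inr v _ u).2 ?_⟩
    simp

lemma ofSets_inl (v : Fin s) (i : Fin n) :
    (∃ a, (ofSets q S hS out).src v a = Sum.inl (Sum.inl i)) ↔ Sum.inl i ∈ S v := by
  constructor
  · rintro ⟨a, ha⟩
    rw [← (ofSets_src_inl (q := q) (hS := hS) (out := out) v a i).1 ha]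
    exact ((S v).equivFin.symm a).2
  · intro h
    refine ⟨(S v).equivFin ⟨_, h⟩, (ofSets_src_inl v _ i).2 ?_⟩
    simp

lemma ofSets_numWires : (ofSets q S hS out).numWires = ∑ v, (S v).card := rfl

open Classical in
lemma ofSets_fanOut (u : Fin s) :
    (ofSets q S hS out).fanOut u = (univ.filter fun v => Sum.inr u ∈ S v).card := by
  unfold Circuit.fanOut
  rw [card_filter]
  apply sum_congr rfl
  intro v _
  by_cases h : Sum.inr u ∈ S v
  · rw [if_pos h, card_eq_one]
    refine ⟨(S v).equivFin ⟨_, h⟩, ?_⟩
    ext a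
    rw [mem_filter, mem_singleton]
    constructor
    · rintro ⟨_, ha⟩
      have h1 := (ofSets_src_inr (q := q) (hS := hS) (out := out) v a u).1 ha
      rw [← Equiv.symm_apply_eq]
      exact Subtype.ext h1
    · intro ha
      refine ⟨mem_univ _, (ofSets_src_inr v a u).2 ?_⟩
      rw [ha]
      simp
  · rw [if_neg h, card_eq_zero, filter_eq_empty_iff]
    intro a _ ha
    exact h ((ofSets_inr (q := q) (hS := hS) (out := out) v u).1 ⟨a, ha⟩)

end

open Classical in
/-- The number of the reached gates without outgoing wires. -/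
theorem sinks_le {n q : ℕ} (D : Circuit n q) (G : Finset (Fin n)) (R : Finset (Fin D.size)) :
    (univ.filter fun v => Reached D G R v ∧ D.fanOut v = 0).card ≤ (leafWires D G R).card := by
  let Re : Finset (Fin D.size) := univ.filter fun v => Reached D G R v
  let W : Finset (Σ i : Fin D.size, Fin (D.arity i)) := univ.filter fun w =>
    (∃ g ∈ G, D.src w.1 w.2 = Sum.inl (Sum.inl g)) ∨
    ∃ u, D.src w.1 w.2 = Sum.inr u ∧ u ∉ R ∧ Reached D G R u
  let Y : Finset (Fin D.size) := univ.filter fun u => u ∉ R ∧ Reached D G R u ∧ D.fanOut u = 1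
  have hRe : Re.card ≤ W.card := by
    have h1 : Re ⊆ W.image Sigma.fst := by
      intro v hv
      have hv' := (mem_filter.1 hv).2
      rw [mem_image]
      cases hv' with
      | input i a g h hg => exact ⟨⟨v, a⟩, mem_filter.2 ⟨mem_univ _, Or.inl ⟨g, hg, h⟩⟩, rfl⟩
      | gate i a j h hj hr =>
        exact ⟨⟨v, a⟩, mem_filter.2 ⟨mem_univ _, Or.inr ⟨j, h, hj, hr⟩⟩, rfl⟩
    exact (card_le_card h1).trans card_image_le
  have hfan : ∀ u : Fin D.size, (univ.filter fun w : (Σ i : Fin D.size, Fin (D.arity i)) =>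
      D.src w.1 w.2 = Sum.inr u).card = D.fanOut u := by
    intro u
    have : (univ.filter fun w : (Σ i : Fin D.size, Fin (D.arity i)) =>
        D.src w.1 w.2 = Sum.inr u) =
        univ.sigma fun i => univ.filter fun a => D.src i a = Sum.inr u := by
      ext w
      simp
    rw [this, card_sigma]
    rfl
  have hW : W.card ≤ (leafWires D G R).card + Y.card := by
    have h1 : W ⊆ leafWires D G R ∪ Y.biUnion fun u =>
        univ.filter fun w : (Σ i : Fin D.size, Fin (D.arity i)) =>
          D.src w.1 w.2 = Sum.inr u := by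
      intro w hw
      rw [mem_union]
      rcases (mem_filter.1 hw).2 with h | ⟨u, h2, h3, h4⟩
      · left
        unfold leafWires
        exact mem_filter.2 ⟨mem_univ _, Or.inl h⟩
      · by_cases h5 : 2 ≤ D.fanOut u
        · left
          unfold leafWires
          exact mem_filter.2 ⟨mem_univ _, Or.inr ⟨u, h2, h3, h5, h4⟩⟩
        · right
          rw [mem_biUnion]
          refine ⟨u, mem_filter.2 ⟨mem_univ _, h3, h4, ?_⟩, mem_filter.2 ⟨mem_univ _, h2⟩⟩
          have h6 : 1 ≤ D.fanOut u := by
            rw [← hfan, Nat.one_le_iff_ne_zero, ← Nat.pos_iff_ne_zero, card_pos]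
            exact ⟨w, mem_filter.2 ⟨mem_univ _, h2⟩⟩
          omega
    refine (card_le_card h1).trans ((card_union_le _ _).trans (Nat.add_le_add_left ?_ _))
    refine card_biUnion_le.trans ?_
    calc ∑ u ∈ Y, (univ.filter fun w : (Σ i : Fin D.size, Fin (D.arity i)) =>
          D.src w.1 w.2 = Sum.inr u).card = ∑ _u ∈ Y, 1 := by
          apply sum_congr rfl
          intro u hu
          rw [hfan]
          exact (mem_filter.1 hu).2.2.2
      _ = Y.card := by simp
      _ ≤ _ := le_rfl
  have hZ : (univ.filter fun v => Reached D G R v ∧ D.fanOut v = 0).card + Y.card ≤ Re.card := by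
    rw [← card_union_of_disjoint]
    · apply card_le_card
      intro v hv
      rw [mem_union] at hv
      rcases hv with h | h
      · exact mem_filter.2 ⟨mem_univ _, (mem_filter.1 h).2.1⟩
      · exact mem_filter.2 ⟨mem_univ _, (mem_filter.1 h).2.2.1⟩
    · rw [disjoint_left]
      intro v h1 h2
      have e1 := (mem_filter.1 h1).2.2
      have e2 := (mem_filter.1 h2).2.2.2
      omega
  omega

end Pool.Agent.Y633.LinK
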